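import Pool.Agent.Mg.Xc01216.G523984

set_option autoImplicit false

namespace Pool.Agent.Results.MP_c01216_gt.ThetaRigid

open Pool.Agent.MP_c01216_gt.Zoll

/-- A metric conformal to the round one has a stationary theta-graph in every unit direction, with
continuous edge lengths, if and only if it is isometric to a round sphere. -/
theorem result (u : E3 → ℝ) (hu : ContDiff ℝ 3 u) : ThetaField u ↔ IsRound u :=
  theta_iff_round u hu

end Pool.Agent.Results.MP_c01216_gt.ThetaRigid
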