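import Pool.Agent.Mg.F019006.Ga60522

set_option autoImplicit false

namespace Pool.Agent.Results.MP_c01216_gt.TwoMirrors

open Pool.Agent.MP_c01216_gt

/-- Every ovaloid with two perpendicular mirror planes carries a stationary theta-graph. -/
theorem result (F : E3 → ℝ) (hF : IsOvaloid F) (h0 : IsMirror F 0) (h2 : IsMirror F 2) :
    ∃ γ : Fin 3 → ℝ → E3, IsTheta F γ :=
  (body_of hF h0 h2).theta

end Pool.Agent.Results.MP_c01216_gt.TwoMirrors
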